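import Mathlib
import Pool.Agent.N576.MX3.D

/-!
# Project MX3 (helper576): the theorem on three logarithms from SIEG, STEP and VAND (helper682)

All parameters are powers of two: `v = 2 ^ k` with `log H ≤ v ≤ 2 log H`, `J = 27 + 2 k`, `L = 2 ^ (4 J)`,
`T_j = 2 ^ (20 + k + (J - j) + 4 J)`, `S_j = 2 ^ (12 + k + 12 j)`.
-/

set_option autoImplicit false

namespace Pool.Agent.N682.MX3

open Pool.Agent.N576.MX3 Finset

lemma exp3 : Real.exp 3 ≤ 21 := by
  have h := Real.exp_one_lt_d9.le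
  have h1 : Real.exp 3 = Real.exp 1 ^ 3 := by
    rw [← Real.exp_nat_mul]
    norm_num
  have h0 : 0 ≤ Real.exp 1 := (Real.exp_pos 1).le
  calc Real.exp 3 = Real.exp 1 ^ 3 := h1
    _ ≤ (2.7182818286 : ℝ) ^ 3 := pow_le_pow_left₀ h0 h 3
    _ ≤ 21 := by norm_num

lemma fac (Y : ℝ) (hY : 0 ≤ Y) (N : ℕ) :
    Y ^ N / (N.factorial : ℝ) ≤ Real.exp (21 * Y - 3 * N) := by
  have h1 := Real.pow_div_factorial_le_exp (Real.exp 3 * Y) (by positivity) N
  have h2 : Y ^ N / (N.factorial : ℝ) =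
      ((Real.exp 3 * Y) ^ N / (N.factorial : ℝ)) * Real.exp (-(3 * N)) := by
    rw [mul_pow, ← Real.exp_nat_mul]
    have h3 : Real.exp ((N : ℝ) * 3) * Real.exp (-(3 * N)) = 1 := by
      rw [← Real.exp_add]
      rw [show (N : ℝ) * 3 + -(3 * N) = 0 by ring, Real.exp_zero]
    calc Y ^ N / (N.factorial : ℝ) = (Y ^ N / (N.factorial : ℝ)) * 1 := by ring
      _ = (Y ^ N / (N.factorial : ℝ)) * (Real.exp ((N : ℝ) * 3) * Real.exp (-(3 * N))) := by rw [h3]
      _ = _ := by ring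
  rw [h2]
  calc ((Real.exp 3 * Y) ^ N / (N.factorial : ℝ)) * Real.exp (-(3 * N))
      ≤ Real.exp (Real.exp 3 * Y) * Real.exp (-(3 * N)) :=
        mul_le_mul_of_nonneg_right h1 (Real.exp_pos _).le
    _ = Real.exp (Real.exp 3 * Y - 3 * N) := by rw [← Real.exp_add]; ring_nf
    _ ≤ Real.exp (21 * Y - 3 * N) := by
        apply Real.exp_le_exp.2
        have := mul_le_mul_of_nonneg_right exp3 hY
        linarith

lemma pow_exp {x : ℝ} (hx : 0 < x) (n : ℕ) : x ^ n = Real.exp (n * Real.log x) := by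
  rw [Real.exp_nat_mul, Real.exp_log hx]

lemma hyp1 {H L T0 S0 S' N : ℕ} {v : ℝ} (hH : 3 ≤ H) (hL : 1 ≤ L) (hS' : 1 ≤ S') (hS : S0 ≤ S')
    (h1H : 1 ≤ Real.log H) (hN1 : 1 ≤ N) (hN : 256 * ((L : ℝ) * S' * Real.log H) ≤ N)
    (hv : 2048 * v * T0 ≤ N) (hg : Real.log (2 * H * L) ≤ 85 * v) :
    (L : ℝ) ^ 3 * ((L : ℝ) ^ 3 * (2 * H * L) ^ (2 * T0) * (H : ℝ) ^ (3 * L * S0)) *
      (2 * H * L) ^ (2 * T0) * (4 * L * Real.log H) ^ N * Real.exp (4 * L * Real.log H * S') *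
      (S' : ℝ) ^ N / N.factorial * (H : ℝ) ^ (3 * L * S') ≤ 1 / 4 := by
  have hH0 : (0 : ℝ) < H := by positivity
  have hL0 : (0 : ℝ) < L := by positivity
  have hL1 : (1 : ℝ) ≤ L := by exact_mod_cast hL
  have hS1 : (1 : ℝ) ≤ S' := by exact_mod_cast hS'
  have hSS : (S0 : ℝ) ≤ S' := by exact_mod_cast hS
  have hN1' : (1 : ℝ) ≤ N := by exact_mod_cast hN1
  have hg0 : (0 : ℝ) < 2 * H * L := by positivity
  set h := Real.log H with hh
  set g := Real.log (2 * H * L) with hgdef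
  set l := Real.log L with hl
  have hl1 : l ≤ L := (Real.log_le_sub_one_of_pos hL0).trans (by linarith)
  have e1 : (L : ℝ) ^ 3 = Real.exp (3 * l) := by
    have := pow_exp hL0 3
    rw [this]
    norm_num [hl]
  have e2 : (2 * (H : ℝ) * L) ^ (2 * T0) = Real.exp (2 * T0 * g) := by
    rw [pow_exp hg0]
    push_cast
    rfl
  have e3 : (H : ℝ) ^ (3 * L * S0) = Real.exp (3 * L * S0 * h) := by
    rw [pow_exp hH0]
    push_cast
    rfl
  have e4 : (H : ℝ) ^ (3 * L * S') = Real.exp (3 * L * S' * h) := by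
    rw [pow_exp hH0]
    push_cast
    rfl
  have key : (L : ℝ) ^ 3 * ((L : ℝ) ^ 3 * (2 * H * L) ^ (2 * T0) * (H : ℝ) ^ (3 * L * S0)) *
      (2 * H * L) ^ (2 * T0) * (4 * L * h) ^ N * Real.exp (4 * L * h * S') *
      (S' : ℝ) ^ N / N.factorial * (H : ℝ) ^ (3 * L * S') =
      ((L : ℝ) ^ 3 * ((L : ℝ) ^ 3 * (2 * H * L) ^ (2 * T0) * (H : ℝ) ^ (3 * L * S0)) *
      (2 * H * L) ^ (2 * T0) * Real.exp (4 * L * h * S') * (H : ℝ) ^ (3 * L * S')) *
      ((4 * L * h * S') ^ N / N.factorial) := by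
    rw [mul_pow (4 * (L : ℝ) * h) (S' : ℝ) N]
    ring
  rw [key, e1, e2, e3, e4]
  simp only [← Real.exp_add]
  have hY : 0 ≤ 4 * (L : ℝ) * h * S' := by positivity
  refine le_trans (mul_le_mul_of_nonneg_left (fac _ hY N) (Real.exp_pos _).le) ?_
  rw [← Real.exp_add]
  have hT : 0 ≤ (T0 : ℝ) := Nat.cast_nonneg _
  have b1 : 4 * T0 * g ≤ 340 / 2048 * N := by
    have := mul_le_mul_of_nonneg_left hg hT
    nlinarith
  have b2 : (L : ℝ) * S0 * h ≤ L * S' * h := by gcongr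
  have b3 : (L : ℝ) ≤ L * S' * h := by
    have : (1 : ℝ) ≤ S' * h := one_le_mul_of_one_le_of_one_le hS1 h1H
    nlinarith
  have fin : 3 * l + (3 * l + 2 * T0 * g + 3 * L * S0 * h) + 2 * T0 * g + 4 * L * h * S' +
      3 * L * S' * h + (21 * (4 * L * h * S') - 3 * N) ≤ -2 := by
    nlinarith
  refine le_trans (Real.exp_le_exp.2 fin) ?_
  have h2 : Real.exp (-2) = (Real.exp 1 ^ 2)⁻¹ := by
    rw [Real.exp_neg, ← Real.exp_nat_mul]
    norm_num
  rw [h2, one_div]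
  apply inv_anti₀ (by norm_num)
  have h3 := Real.exp_one_gt_d9
  nlinarith

lemma hyp2 {H L T0 S0 S' Sm N t : ℕ} {v lam : ℝ} (hH : 3 ≤ H) (hL : 1 ≤ L) (hS' : 1 ≤ S')
    (h1H : 1 ≤ Real.log H) (hv : Real.log H ≤ v) (hg : Real.log (2 * H * L) ≤ 85 * v)
    (ht : t ≤ T0) (hLT : L ≤ T0) (hT0 : 1 ≤ T0) (hSm : 1 ≤ Sm) (hS0m : S0 ≤ Sm) (hS'm : S' ≤ Sm)
    (hNm : N ≤ T0 * Sm) (hlam0 : 0 ≤ lam)
    (hlam : lam ≤ Real.exp (-(400 * v * ((T0 : ℝ) * Sm) ^ 2))) :
    (2 * Real.log H) ^ t * ((L : ℝ) ^ 3 * ((L : ℝ) ^ 3 * (2 * H * L) ^ (2 * T0) *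
      (H : ℝ) ^ (3 * L * S0)) * (2 * H * L) ^ (2 * T0) * (H : ℝ) ^ (3 * L * S') * (2 * (L * S')) * lam) *
      ((N : ℝ) + 1) * (((t : ℝ) + 2) * (S' + 1)) ^ N * (H : ℝ) ^ (3 * L * S') ≤ 1 / 4 := by
  have hH0 : (0 : ℝ) < H := by positivity
  have hL0 : (0 : ℝ) < L := by positivity
  have hL1 : (1 : ℝ) ≤ L := by exact_mod_cast hL
  have hS1 : (1 : ℝ) ≤ S' := by exact_mod_cast hS'
  have hS0n : (0 : ℝ) ≤ S0 := Nat.cast_nonneg _
  have hNn : (0 : ℝ) ≤ N := Nat.cast_nonneg _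
  have htn : (0 : ℝ) ≤ t := Nat.cast_nonneg _
  have hg0 : (0 : ℝ) < 2 * H * L := by positivity
  have ht' : (t : ℝ) ≤ T0 := by exact_mod_cast ht
  have hLT' : (L : ℝ) ≤ T0 := by exact_mod_cast hLT
  have hT0' : (1 : ℝ) ≤ T0 := by exact_mod_cast hT0
  have hSm' : (1 : ℝ) ≤ Sm := by exact_mod_cast hSm
  have hS0m' : (S0 : ℝ) ≤ Sm := by exact_mod_cast hS0m
  have hS'm' : (S' : ℝ) ≤ Sm := by exact_mod_cast hS'm
  have hNm' : (N : ℝ) ≤ (T0 : ℝ) * Sm := by exact_mod_cast hNm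
  set h := Real.log H with hh
  set g := Real.log (2 * H * L) with hgdef
  set l := Real.log L with hl
  have hl1 : l ≤ L := (Real.log_le_sub_one_of_pos hL0).trans (by linarith)
  have e1 : (L : ℝ) ^ 3 = Real.exp (3 * l) := by
    have := pow_exp hL0 3
    rw [this]
    norm_num [hl]
  have e2 : (2 * (H : ℝ) * L) ^ (2 * T0) = Real.exp (2 * T0 * g) := by
    rw [pow_exp hg0]
    push_cast
    rfl
  have e3 : (H : ℝ) ^ (3 * L * S0) = Real.exp (3 * L * S0 * h) := by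
    rw [pow_exp hH0]
    push_cast
    rfl
  have e4 : (H : ℝ) ^ (3 * L * S') = Real.exp (3 * L * S' * h) := by
    rw [pow_exp hH0]
    push_cast
    rfl
  have lin : ∀ x : ℝ, x ≤ Real.exp x := fun x => (lt_of_lt_of_le (by linarith) (Real.add_one_le_exp x)).le
  have f1 : (2 * h) ^ t ≤ Real.exp (t * (2 * h)) := by
    rw [Real.exp_nat_mul]
    exact pow_le_pow_left₀ (by linarith) (lin _) t
  have f2 : 2 * ((L : ℝ) * S') ≤ Real.exp (2 * (L * S')) := lin _
  have f3 : (N : ℝ) + 1 ≤ Real.exp N := Real.add_one_le_exp _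
  have f4 : (((t : ℝ) + 2) * (S' + 1)) ^ N ≤ Real.exp (N * (((t : ℝ) + 2) * (S' + 1))) := by
    rw [Real.exp_nat_mul]
    exact pow_le_pow_left₀ (by positivity) (lin _) N
  rw [e1, e2, e3, e4]
  calc (2 * h) ^ t * (Real.exp (3 * l) * (Real.exp (3 * l) * Real.exp (2 * T0 * g) *
      Real.exp (3 * L * S0 * h)) * Real.exp (2 * T0 * g) * Real.exp (3 * L * S' * h) *
      (2 * (L * S')) * lam) * ((N : ℝ) + 1) * (((t : ℝ) + 2) * (S' + 1)) ^ N *
      Real.exp (3 * L * S' * h)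
      ≤ Real.exp (t * (2 * h)) * (Real.exp (3 * l) * (Real.exp (3 * l) * Real.exp (2 * T0 * g) *
      Real.exp (3 * L * S0 * h)) * Real.exp (2 * T0 * g) * Real.exp (3 * L * S' * h) *
      Real.exp (2 * (L * S')) * Real.exp (-(400 * v * ((T0 : ℝ) * Sm) ^ 2))) * Real.exp N *
      Real.exp (N * (((t : ℝ) + 2) * (S' + 1))) * Real.exp (3 * L * S' * h) := by
        gcongr
    _ = Real.exp (t * (2 * h) + (3 * l + (3 * l + 2 * T0 * g + 3 * L * S0 * h) + 2 * T0 * g +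
      3 * L * S' * h + 2 * (L * S') + -(400 * v * ((T0 : ℝ) * Sm) ^ 2)) + N +
      N * (((t : ℝ) + 2) * (S' + 1)) + 3 * L * S' * h) := by
        simp only [← Real.exp_add]
    _ ≤ Real.exp (-2) := by
        apply Real.exp_le_exp.2
        obtain ⟨Z, hZ⟩ : ∃ Z : ℝ, Z = (T0 : ℝ) * Sm := ⟨_, rfl⟩
        rw [← hZ] at hNm' ⊢
        have hv1 : 1 ≤ v := h1H.trans hv
        have hT : (T0 : ℝ) ≤ Z := by rw [hZ]; exact le_mul_of_one_le_right (by linarith) hSm'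
        have hZ1 : 1 ≤ Z := hT0'.trans hT
        have hZZ : Z ≤ Z ^ 2 := by rw [pow_two]; exact le_mul_of_one_le_right (by linarith) hZ1
        have hZv : Z ^ 2 ≤ v * Z ^ 2 := le_mul_of_one_le_left (by positivity) hv1
        have hvZ : v * Z ≤ v * Z ^ 2 := mul_le_mul_of_nonneg_left hZZ (by linarith)
        have a1 : t * (2 * h) ≤ 2 * (v * Z) := by
          have : t * h ≤ Z * v := mul_le_mul (ht'.trans hT) hv (by linarith) (by linarith)
          linarith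
        have a2 : l ≤ Z := hl1.trans (hLT'.trans hT)
        have a3 : T0 * g ≤ 85 * (v * Z) := by
          have h1 : (T0 : ℝ) * g ≤ T0 * (85 * v) := mul_le_mul_of_nonneg_left hg (by linarith)
          have h2 : (T0 : ℝ) * v ≤ Z * v := mul_le_mul_of_nonneg_right hT (by linarith)
          linarith
        have a4 : L * S0 * h ≤ v * Z := by
          have h1 : (L : ℝ) * S0 ≤ T0 * Sm := mul_le_mul hLT' hS0m' hS0n (by linarith)
          rw [← hZ] at h1
          have h2 : (L : ℝ) * S0 * h ≤ Z * v := mul_le_mul h1 hv (by linarith) (by linarith)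
          linarith
        have a5' : (L : ℝ) * S' ≤ Z := by
          rw [hZ]
          exact mul_le_mul hLT' hS'm' (by linarith) (by linarith)
        have a5 : L * S' * h ≤ v * Z := by
          have h2 : (L : ℝ) * S' * h ≤ Z * v := mul_le_mul a5' hv (by linarith) (by linarith)
          linarith
        have a6 : ((t : ℝ) + 2) * (S' + 1) ≤ 6 * Z := by
          have h1 : (t : ℝ) + 2 ≤ 3 * T0 := by linarith
          have h2 : (S' : ℝ) + 1 ≤ 2 * Sm := by linarith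
          calc ((t : ℝ) + 2) * (S' + 1) ≤ (3 * T0) * (2 * Sm) :=
                mul_le_mul h1 h2 (by linarith) (by linarith)
            _ = 6 * Z := by rw [hZ]; ring
        have a7 : N * (((t : ℝ) + 2) * (S' + 1)) ≤ 6 * Z ^ 2 := by
          calc N * (((t : ℝ) + 2) * (S' + 1)) ≤ Z * (6 * Z) :=
                mul_le_mul hNm' a6 (by positivity) (by linarith)
            _ = 6 * Z ^ 2 := by ring
        linarith
    _ ≤ 1 / 4 := by
        have h2 : Real.exp (-2) = (Real.exp 1 ^ 2)⁻¹ := by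
          rw [Real.exp_neg, ← Real.exp_nat_mul]
          norm_num
        rw [h2, one_div]
        apply inv_anti₀ (by norm_num)
        have h3 := Real.exp_one_gt_d9
        nlinarith

/-- a power of two close to `log H` -/
lemma exists_k {h : ℝ} (h1 : 1 ≤ h) : ∃ k : ℕ, h ≤ (2 : ℝ) ^ k ∧ (2 : ℝ) ^ k ≤ 2 * h := by
  obtain ⟨n, hn1, hn2⟩ := exists_nat_pow_near h1 (by norm_num : (1 : ℝ) < 2)
  refine ⟨n + 1, hn2.le, ?_⟩
  rw [pow_succ]
  linarith

lemma one_le_log {H : ℕ} (hH : 3 ≤ H) : 1 ≤ Real.log H := by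
  rw [Real.le_log_iff_exp_le (by positivity)]
  have h1 := Real.exp_one_lt_d9.le
  have h2 : (3 : ℝ) ≤ H := by exact_mod_cast hH
  linarith

theorem b3_of (h1 : SIEG) (h2 : STEP) (h3 : VAND) : B3 := by
  refine ⟨400 * 2 ^ 1055, 73, ?_, fun q H hH hq hne => ?_⟩
  · exact one_le_mul_of_one_le_of_one_le (by norm_num) (one_le_pow₀ (by norm_num))
  by_contra hcon
  rw [not_le] at hcon
  have h1H := one_le_log hH
  obtain ⟨k, hk1, hk2⟩ := exists_k h1H
  obtain ⟨J, hJ⟩ : ∃ J : ℕ, J = 27 + 2 * k := ⟨_, rfl⟩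
  obtain ⟨L, hLd⟩ : ∃ L : ℕ, L = 2 ^ (4 * J) := ⟨_, rfl⟩
  obtain ⟨T, hTd⟩ : ∃ T : ℕ → ℕ, T = fun j => 2 ^ (20 + k + (J - j) + 4 * J) := ⟨_, rfl⟩
  obtain ⟨S, hSd⟩ : ∃ S : ℕ → ℕ, S = fun j => 2 ^ (12 + k + 12 * j) := ⟨_, rfl⟩
  have hT : ∀ j, T j = 2 ^ (20 + k + (J - j) + 4 * J) := fun j => by rw [hTd]
  have hS : ∀ j, S j = 2 ^ (12 + k + 12 * j) := fun j => by rw [hSd]
  have hL1 : 1 ≤ L := by rw [hLd]; exact Nat.one_le_two_pow
  have hT1 : ∀ j, 1 ≤ T j := fun j => by rw [hT]; exact Nat.one_le_two_pow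
  have hS1 : ∀ j, 1 ≤ S j := fun j => by rw [hS]; exact Nat.one_le_two_pow
  have hH0 : (0 : ℝ) < H := by
    have : 0 < H := by omega
    exact_mod_cast this
  have hL0 : (0 : ℝ) < L := by exact_mod_cast hL1
  -- the logarithm of `2 H L`
  have hg : Real.log (2 * H * L) ≤ 85 * (2 : ℝ) ^ k := by
    rw [Real.log_mul (by positivity) (by positivity), Real.log_mul (by norm_num) (by positivity)]
    have hlL : Real.log L = (4 * J : ℕ) * Real.log 2 := by
      rw [hLd]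
      push_cast
      rw [Real.log_pow]
      push_cast
      ring
    have hlk : (k : ℝ) * Real.log 2 ≤ (2 : ℝ) ^ k - 1 := by
      rw [← Real.log_pow]
      exact Real.log_le_sub_one_of_pos (by positivity)
    have h2l := Real.log_two_lt_d9.le
    have hv1 : (1 : ℝ) ≤ 2 ^ k := one_le_pow₀ (by norm_num)
    rw [hlL, hJ]
    push_cast
    nlinarith
  -- the bound for the linear form
  have hlam : |q.Lam| ≤ Real.exp (-(400 * (2 : ℝ) ^ k * ((T 0 : ℝ) * S J) ^ 2)) := by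
    refine hcon.le.trans (Real.exp_le_exp.2 (neg_le_neg ?_))
    have e1 : (400 : ℝ) * (2 : ℝ) ^ k * ((T 0 : ℝ) * S J) ^ 2 = 400 * (2 ^ 982 * ((2 : ℝ) ^ k) ^ 73) := by
      rw [hT, hS]
      push_cast
      rw [← pow_add, ← pow_mul, ← pow_mul, mul_assoc, ← pow_add, ← pow_add]
      congr 2
      rw [hJ]
      omega
    rw [e1]
    have e2 : ((2 : ℝ) ^ k) ^ 73 ≤ (2 * Real.log H) ^ 73 := pow_le_pow_left₀ (by positivity) hk2 73
    rw [mul_pow] at e2
    have e3 : (2 : ℝ) ^ 982 * ((2 : ℝ) ^ k) ^ 73 ≤ 2 ^ 982 * (2 ^ 73 * Real.log H ^ 73) :=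
      mul_le_mul_of_nonneg_left e2 (by positivity)
    have e4 : (2 : ℝ) ^ 1055 = 2 ^ 982 * 2 ^ 73 := pow_add (2 : ℝ) 982 73
    rw [e4]
    calc 400 * ((2 : ℝ) ^ 982 * ((2 : ℝ) ^ k) ^ 73) ≤ 400 * (2 ^ 982 * (2 ^ 73 * Real.log H ^ 73)) :=
          mul_le_mul_of_nonneg_left e3 (by norm_num)
      _ = 400 * ((2 : ℝ) ^ 982 * 2 ^ 73) * Real.log H ^ 73 := by ring
  have hLT : L ≤ T 0 := by
    rw [hLd, hT]
    exact Nat.pow_le_pow_right (by norm_num) (by omega)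
  have hSm : ∀ j ≤ J, S j ≤ S J := fun j hj => by
    rw [hS, hS]
    exact Nat.pow_le_pow_right (by norm_num) (by omega)
  have hTm : ∀ j, T j ≤ T 0 := fun j => by
    rw [hT, hT]
    exact Nat.pow_le_pow_right (by norm_num) (by omega)
  have hZ1 : (1 : ℝ) ≤ (T 0 : ℝ) * S J :=
    one_le_mul_of_one_le_of_one_le (by exact_mod_cast hT1 0) (by exact_mod_cast hS1 J)
  have hlamS : ∀ j ≤ J, |q.Lam| * ((L : ℝ) * S j) ≤ 1 := by
    intro j hj
    have a1 : (L : ℝ) * S j ≤ (T 0 : ℝ) * S J :=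
      mul_le_mul (by exact_mod_cast hLT) (by exact_mod_cast hSm j hj) (by positivity) (by positivity)
    have hv1 : (1 : ℝ) ≤ 2 ^ k := one_le_pow₀ (by norm_num)
    obtain ⟨Z, hZ⟩ : ∃ Z : ℝ, Z = (T 0 : ℝ) * S J := ⟨_, rfl⟩
    rw [← hZ] at a1 hZ1 hlam
    have a2 : Z ≤ 400 * (2 : ℝ) ^ k * Z ^ 2 := by
      have b1 : Z ≤ Z ^ 2 := by rw [pow_two]; exact le_mul_of_one_le_right (by linarith) hZ1
      have b2 : Z ^ 2 ≤ 2 ^ k * Z ^ 2 := le_mul_of_one_le_left (by positivity) hv1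
      nlinarith
    calc |q.Lam| * ((L : ℝ) * S j) ≤ Real.exp (-Z) * Z :=
          mul_le_mul (hlam.trans (Real.exp_le_exp.2 (neg_le_neg a2))) a1 (by positivity)
            (Real.exp_pos _).le
      _ ≤ Real.exp (-Z) * Real.exp Z := by
          apply mul_le_mul_of_nonneg_left _ (Real.exp_pos _).le
          linarith [Real.add_one_le_exp Z]
      _ = 1 := by rw [← Real.exp_add]; simp
  -- the auxiliary polynomial
  obtain ⟨p, ⟨l0, hl0, hp0⟩, hpP, hpA⟩ := h1 q H L (T 0) (S 0) hq hL1 (hT1 0) (hS1 0) (by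
    rw [hLd, hT, hS, ← pow_mul, ← pow_mul, ← pow_add, ← pow_succ']
    apply Nat.pow_le_pow_right (by norm_num)
    omega)
  have hPone : (1 : ℝ) ≤ (L : ℝ) ^ 3 * (2 * H * L) ^ (2 * T 0) * (H : ℝ) ^ (3 * L * S 0) := by
    have a1 : (1 : ℝ) ≤ L := by exact_mod_cast hL1
    have a2 : (1 : ℝ) ≤ H := by
      have : 1 ≤ H := by omega
      exact_mod_cast this
    have a3 : (1 : ℝ) ≤ 2 * H * L := by
      have := one_le_mul_of_one_le_of_one_le a2 a1
      nlinarith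
    exact one_le_mul_of_one_le_of_one_le (one_le_mul_of_one_le_of_one_le (one_le_pow₀ a1)
      (one_le_pow₀ a3)) (one_le_pow₀ a2)
  -- the induction
  have ind : ∀ j ≤ J, ∀ m1 m2 s, m1 < T j → m2 < T j → s < S j → q.A L p m1 m2 s = 0 := by
    intro j
    induction j with
    | zero => exact fun _ => hpA
    | succ j ih =>
      intro hj
      have hj' : j ≤ J := by omega
      have hTj : 2 * T (j + 1) = T j := by
        rw [hT, hT, ← pow_succ']
        congr 1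
        omega
      have hSS : S j ≤ S (j + 1) := by
        rw [hS, hS]
        exact Nat.pow_le_pow_right (by norm_num) (by omega)
      have hS0 : S 0 ≤ S (j + 1) := by
        rw [hS, hS]
        exact Nat.pow_le_pow_right (by norm_num) (by omega)
      have hN1 : 1 ≤ S j * T (j + 1) := Nat.mul_pos (hS1 j) (hT1 (j + 1))
      have hNc : ((S j * T (j + 1) : ℕ) : ℝ) = 2 ^ (32 + 2 * k + 12 * j + 4 * J + (J - (j + 1))) := by
        rw [hS, hT]
        push_cast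
        rw [← pow_add]
        congr 1
        omega
      have hNm : S j * T (j + 1) ≤ T 0 * S J := by
        rw [mul_comm]
        exact Nat.mul_le_mul (hTm _) (hSm j hj')
      refine h2 q H L (T 0) (T (j + 1)) (S j) (S (j + 1)) p _ hq hH hL1 (hT1 _) ?_ (hS1 j) hSS hPone
        hpP (hlamS (j + 1) hj) ?_ ?_ ?_
      · rw [hTj]
        exact hTm j
      · refine hyp1 (v := 2 ^ k) hH hL1 (hS1 _) hS0 h1H hN1 ?_ ?_ hg
        · rw [hNc]
          have b1 : (L : ℝ) * S (j + 1) * Real.log H ≤ (L : ℝ) * S (j + 1) * 2 ^ k :=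
            mul_le_mul_of_nonneg_left hk1 (by positivity)
          have b2 : 256 * ((L : ℝ) * S (j + 1) * 2 ^ k) = 2 ^ (32 + 2 * k + 12 * j + 4 * J) := by
            rw [hLd, hS]
            push_cast
            rw [show (256 : ℝ) = 2 ^ 8 by norm_num, ← pow_add, ← pow_add, ← pow_add]
            congr 1
            omega
          calc 256 * ((L : ℝ) * S (j + 1) * Real.log H) ≤ 256 * ((L : ℝ) * S (j + 1) * 2 ^ k) := by
                linarith
            _ = 2 ^ (32 + 2 * k + 12 * j + 4 * J) := b2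
            _ ≤ 2 ^ (32 + 2 * k + 12 * j + 4 * J + (J - (j + 1))) :=
                pow_le_pow_right₀ (by norm_num) (by omega)
        · rw [hNc, hT]
          push_cast
          rw [show (2048 : ℝ) = 2 ^ 11 by norm_num, ← pow_add, ← pow_add]
          exact pow_le_pow_right₀ (by norm_num) (by omega)
      · exact hyp2 (v := 2 ^ k) hH hL1 (hS1 _) h1H hk1 hg (hTm _) hLT (hT1 0) (hS1 J)
          (hSm 0 (by omega)) (hSm _ hj) hNm (abs_nonneg _) hlam
      · rw [hTj]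
        exact ih hj'
  -- the end
  refine hp0 (h3 q H L (T J) (S J) p hq ?_ ?_ hne (ind J le_rfl) l0 hl0)
  · rw [hT, hLd]
    calc 3 * 2 ^ (4 * J) ≤ 2 ^ 2 * 2 ^ (4 * J) := Nat.mul_le_mul_right _ (by norm_num)
      _ = 2 ^ (2 + 4 * J) := by rw [← pow_add]
      _ ≤ _ := Nat.pow_le_pow_right (by norm_num) (by omega)
  · rw [hS, hLd, ← pow_mul]
    exact Nat.pow_le_pow_right (by norm_num) (by omega)

end Pool.Agent.N682.MX3
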